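import Mathlib
import Pool.Agent.Helper37.Voronoi.Defs
import Pool.Agent.Helper37.Voronoi.Family

/-!
# No polynomial relation between the extension complexities of `VC(Λ)` and `VC(Λ*)`

For every real polynomial `p` there is a lattice `Λ = B ℤ^d` with
`xc (VC (Λ*)) > p (xc (VC (Λ)))`.

Proof idea.  Write `V` for a set of `d = 4 n ^ 2 + 2 n + 1` nodes: a root, the `2 n` literals and
the ordered pairs of literals.  For a fixed symmetric nonnegative integral coupling matrix `A` and a
small `ε > 0` the matrix `1 - ε A` is the Gram matrix of a lattice `Λ` that comes from a weighted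
network (its Voronoi cell is a zonotope, the projection of a box), so `xc (VC (Λ))` is at most
`2 (d + d ^ 2)`.  The dual lattice has Gram matrix `(1 - ε A)⁻¹`, and `ε` times the matrix
`(|a ∩ b| - 1) ^ 2` with `a, b` ranging over the subsets of an `n`-set is a submatrix of the slack
matrix of its Voronoi cell.  The rectangle covering bound for the unique disjointness matrix gives
`xc (VC (Λ*)) ≥ (3/2) ^ n - 1`.
-/

set_option autoImplicit false

namespace Pool.Agent.Results.MP_899f7c_co.NoPolynomialRelation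

open Pool.Agent.Helper37.Voronoi

/-- For every polynomial `p` there is a lattice `Λ` such that the extension complexity of the Voronoi
cell of the dual lattice exceeds `p` of the extension complexity of the Voronoi cell of `Λ`. -/
theorem result : ∀ p : Polynomial ℝ,
    ∃ (d n : ℕ) (B : (Fin d → ℝ) →ₗ[ℝ] EuclideanSpace ℝ (Fin n)),
      1 ≤ d ∧ Function.Injective B ∧
        p.eval (xc (voronoiCell (latOf B)) : ℝ)
          < (xc (voronoiCell (dualLattice (latOf B))) : ℝ) := by
  intro p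
  by_contra hcon
  push Not at hcon
  choose N B hB hup hlow using family_fin
  refine not_poly_bound p (fun n => (xc (voronoiCell (latOf (B n))) : ℝ))
    (fun n => (xc (voronoiCell (dualLattice (latOf (B n)))) : ℝ)) (fun n => Nat.cast_nonneg _)
    ?_ hlow ?_
  · intro n
    have h1 : (xc (voronoiCell (latOf (B n))) : ℝ)
        ≤ 2 * ((4 * (n : ℝ) ^ 2 + 2 * n + 1) + (4 * (n : ℝ) ^ 2 + 2 * n + 1) ^ 2) := by
      exact_mod_cast hup n
    have hn : (0 : ℝ) ≤ n := Nat.cast_nonneg n
    have h2 : 4 * (n : ℝ) ^ 2 + 2 * n + 1 ≤ 4 * ((n : ℝ) + 1) ^ 2 := by nlinarith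
    have h3 : (1 : ℝ) ≤ 4 * (n : ℝ) ^ 2 + 2 * n + 1 := by nlinarith
    have h4 : (4 * (n : ℝ) ^ 2 + 2 * n + 1) ^ 2 ≤ (4 * ((n : ℝ) + 1) ^ 2) ^ 2 := by gcongr
    have h5 : (4 * (n : ℝ) ^ 2 + 2 * n + 1) ≤ (4 * (n : ℝ) ^ 2 + 2 * n + 1) ^ 2 := by nlinarith
    calc (xc (voronoiCell (latOf (B n))) : ℝ)
        ≤ 2 * ((4 * (n : ℝ) ^ 2 + 2 * n + 1) + (4 * (n : ℝ) ^ 2 + 2 * n + 1) ^ 2) := h1
      _ ≤ 4 * (4 * ((n : ℝ) + 1) ^ 2) ^ 2 := by linarith
      _ = 64 * ((n : ℝ) + 1) ^ 4 := by ring
  · intro n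
    exact hcon _ _ (B n) (by omega) (hB n)

end Pool.Agent.Results.MP_899f7c_co.NoPolynomialRelation
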